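import Pool.Agent.FOR.Main
import Pool.Agent.FOR.Bit
import Pool.Agent.RFO.Main

/-!
MP_e2be99_lc: explicit hitting sets of polynomial size for read-once (oblivious) algebraic branching
programs in any order, of arbitrary individual degree, and for read-once formulas of ANY depth whose
leaves are such programs, over fields of characteristic zero.

`Cuts w f`: for every set `S` of variables `f` is a sum of `w` products of a polynomial in the
variables in `S` and a polynomial in the other variables.  This holds if `f` has read-once programs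
of width `w` in every order of the variables.

`RO p (Cuts w)`: the least class containing these `f` and, with at most `p + 1` members pairwise without
common variables, everything algebraic over them (so every polynomial in them).
-/

set_option autoImplicit false

namespace Pool.Agent.Results.MP_e2be99_lc.AnyOrderReadOnce

open MvPolynomial
open Pool.Agent.AOI (Cuts)
open Pool.Agent.FOR (Ps lev points)
open Pool.Agent.ROQ (RO ext)
open Pool.Agent.RFO (degO pointsO)

universe u

theorem result :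
    (∀ (K : Type u) [Field K] [CharZero K] (n w : ℕ),
      (∀ f : MvPolynomial (Fin n) K, f ≠ 0 → Cuts w f →
        aeval (fun i : Fin n => Ps (lev (max n w)) (X 0) (X 1) (i : ℕ)) f ≠
          (0 : MvPolynomial (Fin 2) K)) ∧
      (∀ (f : MvPolynomial (Fin n) K) (d : ℕ), f ≠ 0 → Cuts w f → (∀ i, f.degreeOf i ≤ d) →
        ∃ x ∈ points n (n * d) w, eval (fun i => ((x i : ℕ) : K)) f ≠ 0) ∧
      (∀ (s : Multiset (MvPolynomial (Fin n) K)) (g : MvPolynomial (Fin n) K) (D : ℕ),
        (∀ f ∈ s, f ≠ 0 ∧ Cuts w f) → g ∣ s.prod → g.totalDegree ≤ D →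
          ∃ x ∈ points n D w, eval (fun i => ((x i : ℕ) : K)) g ≠ 0) ∧
      ∀ (p m : ℕ) (P : Fin m → MvPolynomial (Fin n) K), 0 < p →
        (∀ j, P j ≠ 0 ∧ RO p (Cuts w) (P j)) → ∀ g : MvPolynomial (Fin n) K, g ∣ ∏ j, P j →
          aeval (ext p fun i : Fin n => Ps (lev (max n (w + 1))) (X 0) (X 1) (i : ℕ)) g ≠
            (0 : MvPolynomial (Fin 2 ⊕ Fin (p + 1)) K) ∧
          ∀ D : ℕ, g.totalDegree ≤ D →
            ∃ x ∈ pointsO n w p D, eval (fun i => ((x i : ℕ) : K)) g ≠ 0) ∧
    (∀ n D w : ℕ, (points n D w).card ≤ 2 ^ 3840 * (D + 1) ^ 2 * (n + w + 1) ^ 480 ∧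
      ∀ x ∈ points n D w, ∀ i, x i ≤ (D + 2) ^ (2 ^ 4032 * (n + w + 1) ^ 504)) ∧
    ∀ n w p D : ℕ, (pointsO n w p D).card ≤ (D * degO n w p + 1) ^ (p + 3) ∧
      ∀ x ∈ pointsO n w p D, ∀ i,
        x i ≤ (2 * (D * degO n w p) + n + 2) ^ (2 ^ 4000 * (n + w + 2) ^ 500 + p * n + 2) := by
  refine ⟨fun K _ _ n w => ⟨fun f hf hw => Pool.Agent.FOR.gen f hf hw, fun f d hf hw hd => ?_,
    fun s g D hs hg hD => Pool.Agent.FOR.main s hs g hg hD, fun p m P hp hP g hg =>
      ⟨Pool.Agent.RFO.gen_ro hp P hP g hg, fun D hD => Pool.Agent.RFO.main_ro hp P hP g hg hD⟩⟩,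
    fun n D w => ⟨Pool.Agent.FOR.card_points' n D w, fun x hx i =>
      Pool.Agent.FOR.bit_points n D w x hx i⟩,
    fun n w p D => ⟨Pool.Agent.RFO.card_ptsO n _ p _, fun x hx i =>
      Pool.Agent.RFO.bit_ptsO n w p _ x hx i⟩⟩
  refine Pool.Agent.FOR.main {f} (fun f' hf' => ?_) f ?_ (Pool.Agent.AOI.totalDegree_le f hd)
  · rw [Multiset.mem_singleton] at hf'
    rw [hf']
    exact ⟨hf, hw⟩
  · rw [Multiset.prod_singleton]

end Pool.Agent.Results.MP_e2be99_lc.AnyOrderReadOnce
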