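import Mathlib
import Pool.Agent.BNR.All
import Pool.Agent.BNR.Bip
import Pool.Agent.BNR.RankS

/-!
Deterministic black-box noncommutative rank: explicit tuples of integer matrices of polynomial
size, and consequences (symbolic matrices of commuting variables, bipartite matching).
-/

namespace Pool.Agent.Results.MP_e2be99_lc.NoncommutativeRank

open Pool.Agent.BNR Matrix

universe u

/-- `T (2 : K) t N e`, `e = 0, 1, 2, ...`, is the `N × N` Hankel matrix with the entries
`∑ s < N, t ^ s * 2 ^ ((e * N + s) * (a + b))`.  Let `L` be a tuple of `m` matrices of size `n`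
over a field of characteristic zero and `N > 2 m n ^ 2`.
(1) The noncommutative rank of `∑ L e x_e` is larger than `r` (in the sense of zero blocks, or
in the sense of the values at all tuples of square matrices) if and only if for one of the
`n * N * N + 1` explicit tuples `T (2 : K) t N` the rank of `∑ L e ⊗ T_e` is larger than `r N`.
(2) If the `L e`, `e ∉ S`, have rank at most one, or if all the `L e` are symmetric and those with
`e ∉ S` have rank at most two, then the largest rank of a combination of the `L e` over `K` is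
larger than `r` if and only if, for some integers `0 ≤ y e ≤ n`, `e ∈ S`, the noncommutative rank
of the tuple `join L S y` (the matrix `∑ e ∈ S, y e L e` and the `L e`, `e ∉ S`) is larger than `r`.
(3) A bipartite graph with vertex classes of size `n` has a perfect matching if and only if the rank
of the explicit integer matrix `∑ E_(i, j) ⊗ T_(n i + j)`, the sum over the edges `(i, j)`, is
larger than `(n - 1) N` for some `t ≤ n N ^ 2`, `N > 2 n ^ 4`. -/
theorem result (K : Type u) [Field K] [CharZero K] (n m N : ℕ) :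
    (∀ (L : Fin m → Matrix (Fin n) (Fin n) K) (r : ℕ), 2 * (m * n ^ 2) < N →
      List.TFAE [NcRk L (r + 1),
        ∃ (d : ℕ) (Y : Fin m → Matrix (Fin d) (Fin d) K), r * d < (ev L Y).rank,
        ∃ t : ℕ, t ≤ n * N * N ∧ r * N < (ev L fun e => T (2 : K) (t : K) N e).rank] ∧
      (∀ S : Finset (Fin m), ((∀ e, e ∉ S → (L e).rank ≤ 1) ∨
          (∀ e, (L e).IsSymm) ∧ ∀ e, e ∉ S → (L e).rank ≤ 2) →
        ((∃ x : Fin m → K, r < (∑ e, x e • L e).rank) ↔
          ∃ y : Fin m → ℕ, (∀ e, y e ≤ n) ∧ NcRk (join L S y) (r + 1)))) ∧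
    (∀ (G : Fin n → Fin n → Prop) [DecidableRel G], 0 < n → 2 * n ^ 4 < N →
      ((∃ σ : Equiv.Perm (Fin n), ∀ i, G i (σ i)) ↔
        ∃ t : ℕ, t ≤ n * N * N ∧
          (n - 1) * N < (ev (adj K G) fun e => T (2 : K) (t : K) N e).rank)) := by
  refine ⟨fun L r hN => ⟨?_, fun S hS => rank_plus L S hS (r + 1)⟩, fun G _ hn hN => bip hn N hN G⟩
  tfae_have 1 → 3 := by
    intro h
    obtain ⟨t, ht, h1⟩ := all_ranks N L r h
    refine ⟨t, ht, ?_⟩
    have h2 : (r + 1) * N = r * N + N := Nat.succ_mul r N
    omega
  tfae_have 3 → 2 := by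
    rintro ⟨t, -, ht⟩
    exact ⟨N, _, ht⟩
  tfae_have 2 → 1 := by
    rintro ⟨d, Y, h⟩
    exact up L r Y (by rwa [Fintype.card_fin])
  tfae_finish

end Pool.Agent.Results.MP_e2be99_lc.NoncommutativeRank
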