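import Pool.Agent.KAL.Res

/-!
MP_e2be99_lc: black-box identity testing for all arithmetic circuits with few reused gates: circuits
with `s` leaves which are variables and `t` wires leaving reused gates have explicit hitting sets of
size `(n D)^O(sqrt s + t)`; determinants and branching programs of size `s` of size
`(n D)^O(s^(2/3))`; oblivious programs of width `w` and length `s`, read in any order, of size
`(n D)^O(w sqrt s)`; all limits of such polynomials, read-once compositions of any depth of these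
limits, and divisors of products.
-/

set_option autoImplicit false

namespace Pool.Agent.Results.MP_e2be99_lc.SmallCircuits

open MvPolynomial
open Pool.Agent.KAL
open Pool.Agent.ROQ (RO)

theorem result.{u, v, x} (n s k t b w m r p : ℕ) (hr : 0 < r) (hp : 0 < p) (hs : s ≤ r * m) :
    (∀ D, (hits n m (rk r k t b w) p D).card ≤
        (D * dg n (rk r k t b w) p + 1) ^ (5 * m + rk r k t b w + p + 4) ∧
      ∀ a ∈ hits n m (rk r k t b w) p D, ∀ i,
        |a i| ≤ ((m + 2) * (rk r k t b w + 1) *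
          (2 * (D * dg n (rk r k t b w) p + n + 1)) ^ dg n (rk r k t b w) p : ℕ)) ∧
    (rk r k t 1 0 = 14 * r + 6 * t + k + 1 ∧ rk r 0 0 b 0 ≤ 4 * r ^ 2 + 12 * r + 1 ∧
      rk r 0 0 0 w = 4 * r * (w ^ 2 + 3) + 1) ∧
    ∀ (F : Type x) [Field F] [CharZero F],
      (∀ i, (pt n m (rk r k t b w) p (X : Par m (rk r k t b w) ⊕ Fin (p + 1) →
        MvPolynomial (Par m (rk r k t b w) ⊕ Fin (p + 1)) F) i).totalDegree ≤
          dg n (rk r k t b w) p) ∧
      (∀ Φ : Fin (k + 1) → Circ F (n + k), nx Φ Finset.univ ≤ s → ny Φ ≤ t →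
        (∀ j, (Φ j).Wd b w) →
          Limit.{x, x, x} n s k t b w (run Φ (X : Fin n → MvPolynomial (Fin n) F))) ∧
      ∀ (N : ℕ) (P : Fin N → MvPolynomial (Fin n) F),
        (∀ j, P j ≠ 0 ∧ RO p (Limit.{u, v, x} n s k t b w) (P j)) → ∀ g, g ∣ ∏ j, P j →
          aeval (pt n m (rk r k t b w) p (X : Par m (rk r k t b w) ⊕ Fin (p + 1) →
            MvPolynomial (Par m (rk r k t b w) ⊕ Fin (p + 1)) F)) g ≠ 0 ∧
          ∀ D, g.totalDegree ≤ D → ∃ a ∈ hits n m (rk r k t b w) p D,
            eval (fun i => ((a i : ℤ) : F)) g ≠ 0 :=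
  ⟨fun D => ⟨hits_card n m _ p D, fun a ha i => hits_bound n m _ p D a ha i⟩,
    ⟨rk_formula r k t hr, rk_det r b, rk_prog r w⟩,
    fun _ _ _ => ⟨fun i => pt_degree n m _ p i, fun Φ h1 h2 h3 => limit_self Φ h1 h2 h3,
      fun _ P hP g hg => main hr hp hs P hP g hg⟩⟩

end Pool.Agent.Results.MP_e2be99_lc.SmallCircuits
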