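import Pool.Agent.TWB.Ro

/-!
MP_e2be99_lc: black-box identity testing, polynomial size, for sums of boundedly many (more generally
polynomials in unboundedly many, at most `k` of them algebraically independent) products of
unboundedly many formulas of bounded depth and bounded occurrence whose leaves are polynomials, of any
degree, with flattening ranks at most `w`, and at most `P` for the flattenings by at most `k`
variables, and for the read-once compositions, of any depth, of such polynomials.  Special cases: top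
fan-in `k` depth 4 circuits with bounded bottom degree, or with sums of univariate polynomials of any
degree at the bottom; sums of `k` products of read-once programs in any order, of constant width or of
constant individual degree.
-/

set_option autoImplicit false

namespace Pool.Agent.Results.MP_e2be99_lc.TopFaninAnyOrder

open MvPolynomial
open Pool.Agent.TWB (Leaf lvl deg bits full hit W2)
open Pool.Agent.ROQ (RO)
open Pool.Agent.Helper8.Occ (OccFormula seeds)

theorem result (n κ k w P Δ R : ℕ) :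
    (∀ i, (full n (lvl n κ k w P Δ) (seeds κ k P Δ + 1) i).totalDegree ≤ deg n κ k w P Δ) ∧
    (hit n (lvl n κ k w P Δ) (seeds κ k P Δ + 1) R).card ≤ (R + 1) ^ (2 + 2 * (seeds κ k P Δ + 1)) ∧
    (∀ x ∈ hit n (lvl n κ k w P Δ) (seeds κ k P Δ + 1) R, ∀ i,
      |x i| ≤ ((2 * R + n + (seeds κ k P Δ + 1) + 2 : ℕ) : ℤ) ^ bits n κ k w P Δ) ∧
    (∀ (N : ℕ) (Q : Fin N → MvPolynomial (Fin n) ℚ),
      (∀ j, Q j ≠ 0 ∧ RO 1 (W2 n κ k w P Δ) (Q j)) → ∀ f, f ∣ ∏ j, Q j →
        aeval (full n (lvl n κ k w P Δ) (seeds κ k P Δ + 1)) f ≠ 0 ∧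
        (deg n κ k w P Δ * f.totalDegree ≤ R →
          ∃ x ∈ hit n (lvl n κ k w P Δ) (seeds κ k P Δ + 1) R,
            eval (fun i => ((x i : ℤ) : ℚ)) f ≠ 0)) ∧
    ∀ (N m : ℕ) (g : Fin N → Fin m → MvPolynomial (Fin n) ℚ) (e : Fin N → Fin m → ℕ)
      (a : Fin N → ℚ),
      (∀ i j, OccFormula κ (Leaf n k w P) Δ (g i j)) →
      (∀ b : Finset (Fin N),
        AlgebraicIndepOn ℚ (fun i => ∏ j, g i j ^ e i j) (b : Set (Fin N)) → b.card ≤ k) →
      ∑ i, C (a i) * ∏ j, g i j ^ e i j ≠ 0 →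
      2 ^ (N + 1) * (deg n κ k w P Δ * ∑ i, ∑ j, (g i j).totalDegree) + N ≤ R →
      ∀ f, f ∣ ∑ i, C (a i) * ∏ j, g i j ^ e i j →
        ∃ x ∈ hit n (lvl n κ k w P Δ) (seeds κ k P Δ + 1) R,
          eval (fun i => ((x i : ℤ) : ℚ)) f ≠ 0 :=
  ⟨Pool.Agent.TWB.totalDegree_full' n κ k w P Δ _, Pool.Agent.TWB.card_hit n _ _ R,
    fun _ hx i => Pool.Agent.TWB.hit_le _ hx i,
    fun _ Q hQ f hf => ⟨Pool.Agent.TWB.ro_full κ k w P Δ Q hQ f hf,
      fun hR => Pool.Agent.TWB.hit_RO f (Pool.Agent.TWB.ro_full κ k w P Δ Q hQ f hf) hR⟩,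
    fun _ _ g e a hg htr h0 hR f hf => Pool.Agent.TWB.hit_sum g e hg htr a h0 f hf hR⟩

end Pool.Agent.Results.MP_e2be99_lc.TopFaninAnyOrder
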